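import Pool.Agent.Lib_helper2.EFD.W.MB

set_option autoImplicit false

namespace Pool.Agent.EFD

/-- the margins as a linear map -/
noncomputable def md_phi {ι : Type} [Fintype ι] (u : Fin 3 → ι → ℝ) :
    (ι → Fin 3 → ℝ) →ₗ[ℝ] (Fin 3 × Fin 3 → ℝ) where
  toFun x := fun p => ∑ g, u p.1 g * (x g p.1 - x g p.2)
  map_add' x y := by
    funext p
    simp only [Pi.add_apply, ← Finset.sum_add_distrib]
    exact Finset.sum_congr rfl fun g _ => by ring
  map_smul' a x := by
    funext p
    simp only [Pi.smul_apply, smul_eq_mul, RingHom.id_apply, Finset.mul_sum]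
    exact Finset.sum_congr rfl fun g _ => by ring

theorem md_phi_apply {ι : Type} [Fintype ι] (u : Fin 3 → ι → ℝ) (x : ι → Fin 3 → ℝ)
    (p : Fin 3 × Fin 3) : md_phi u x p = ∑ g, u p.1 g * (x g p.1 - x g p.2) := rfl

/-- the fractional allocations -/
def md_S (ι : Type) : Set (ι → Fin 3 → ℝ) := Set.pi Set.univ fun _ => stdSimplex ℝ (Fin 3)

/-- the target -/
def md_T (e : ℝ) : Set (Fin 3 × Fin 3 → ℝ) := {y | ∀ p : Fin 3 × Fin 3, p.1 ≠ p.2 → e ≤ y p}

theorem md_T_convex (e : ℝ) : Convex ℝ (md_T e) := by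
  intro y hy z hz a b ha hb hab p hp
  have h1 := hy p hp
  have h2 := hz p hp
  simp only [Pi.add_apply, Pi.smul_apply, smul_eq_mul]
  have h3 := mul_le_mul_of_nonneg_left h1 ha
  have h4 := mul_le_mul_of_nonneg_left h2 hb
  have : e = a * e + b * e := by rw [← add_mul, hab, one_mul]
  linarith

theorem md_T_closed (e : ℝ) : IsClosed (md_T e) := by
  have : md_T e = ⋂ p : Fin 3 × Fin 3, ⋂ _ : p.1 ≠ p.2, {y | e ≤ y p} := by
    ext y
    simp [md_T]
  rw [this]
  exact isClosed_iInter fun p => isClosed_iInter fun _ =>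
    isClosed_le continuous_const (continuous_apply p)

theorem md_S_convex (ι : Type) : Convex ℝ (md_S ι) :=
  convex_pi fun _ _ => convex_stdSimplex ℝ (Fin 3)

theorem md_S_compact (ι : Type) : IsCompact (md_S ι) :=
  isCompact_univ_pi fun _ => isCompact_stdSimplex ℝ (Fin 3)

/-- the value of a dual vector at the margins of an integral allocation -/
theorem md_dual {ι : Type} [Fintype ι] (u : Fin 3 → ι → ℝ) (l : Fin 3 → Fin 3 → ℝ)
    (σ : ι → Fin 3) :
    ∑ p : Fin 3 × Fin 3, l p.1 p.2 * md_phi u (fun g j => if j = σ g then 1 else 0) p =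
      ∑ g, wv u l (σ g) g := by
  simp only [md_phi_apply, Finset.mul_sum]
  rw [Finset.sum_comm]
  refine Finset.sum_congr rfl fun g _ => ?_
  rw [Fintype.sum_prod_type]
  simp only [wv]
  have h1 : ∀ i j : Fin 3, l i j * (u i g * ((if i = σ g then (1 : ℝ) else 0) -
      if j = σ g then 1 else 0)) =
      (if i = σ g then l i j * u i g else 0) - if j = σ g then l i j * u i g else 0 := by
    intro i j
    split_ifs <;> ring
  simp only [h1, Finset.sum_sub_distrib]
  congr 1
  · have h2 : ∀ i : Fin 3, (∑ j, if i = σ g then l i j * u i g else 0) =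
        if i = σ g then ∑ j, l i j * u i g else 0 := by
      intro i
      split_ifs <;> simp
    simp only [h2]
    rw [Finset.sum_ite_eq' Finset.univ (σ g)]
    simp [Finset.sum_mul]
  · refine Finset.sum_congr rfl fun i _ => ?_
    rw [Finset.sum_ite_eq' Finset.univ (σ g)]
    simp

/-- a linear functional on a finite product -/
theorem md_lin (f : StrongDual ℝ (Fin 3 × Fin 3 → ℝ)) (y : Fin 3 × Fin 3 → ℝ) :
    f y = ∑ p, f (Pi.single p 1) * y p := by
  have h : y = ∑ p, y p • (Pi.single p (1 : ℝ) : Fin 3 × Fin 3 → ℝ) := by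
    funext q
    simp [Finset.sum_apply, Pi.single_apply]
  conv_lhs => rw [h]
  rw [map_sum]
  refine Finset.sum_congr rfl fun p _ => ?_
  rw [map_smul, smul_eq_mul, mul_comm]

theorem margin_pr {ι : Type} [Fintype ι] (u : Fin 3 → ι → ℝ) (h0 : ∀ i g, 0 ≤ u i g)
    (h1 : ∀ i, ∑ g, u i g = 1) (d : ℝ) (hd0 : 0 < d)
    (hd : ∀ i j, i ≠ j → d ≤ ∑ g, |u i g - u j g|) :
    ∃ x : ι → Fin 3 → ℝ, (∀ g j, 0 ≤ x g j) ∧ (∀ g, ∑ j, x g j = 1) ∧
      ∀ i j, i ≠ j → d / 96 ≤ ∑ g, u i g * (x g i - x g j) := by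
  by_contra hcon
  have hdisj : Disjoint (md_phi u '' md_S ι) (md_T (d / 96)) := by
    rw [Set.disjoint_left]
    rintro y ⟨x, hx, rfl⟩ hy
    refine hcon ⟨x, fun g j => (hx g (Set.mem_univ g)).1 j, fun g => (hx g (Set.mem_univ g)).2,
      fun i j hij => ?_⟩
    exact hy (i, j) hij
  have hcont : Continuous (md_phi u) := LinearMap.continuous_of_finiteDimensional _
  obtain ⟨f, s, t, hs, hst, ht⟩ := geometric_hahn_banach_compact_closed
    ((md_S_convex ι).is_linear_image (md_phi u).isLinear)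
    ((md_S_compact ι).image hcont) (md_T_convex (d / 96)) (md_T_closed (d / 96)) hdisj
  set c : Fin 3 × Fin 3 → ℝ := fun p => f (Pi.single p 1) with hc
  have hf : ∀ y, f y = ∑ p, c p * y p := fun y => md_lin f y
  set y0 : Fin 3 × Fin 3 → ℝ := fun _ => d / 96 with hy0
  have hy0T : ∀ (p : Fin 3 × Fin 3) (r : ℝ), (p.1 ≠ p.2 → 0 ≤ r) →
      y0 + r • (Pi.single p (1 : ℝ) : Fin 3 × Fin 3 → ℝ) ∈ md_T (d / 96) := by
    intro p r hr q hq
    simp only [Pi.add_apply, Pi.smul_apply, smul_eq_mul, hy0]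
    by_cases hqp : q = p
    · subst hqp
      simp only [Pi.single_eq_same, mul_one]
      linarith [hr hq]
    · rw [Pi.single_eq_of_ne hqp]
      simp
  have hval : ∀ (p : Fin 3 × Fin 3) (r : ℝ), (p.1 ≠ p.2 → 0 ≤ r) → t < f y0 + r * c p := by
    intro p r hr
    have := ht _ (hy0T p r hr)
    rwa [map_add, map_smul, smul_eq_mul] at this
  have hty : t < f y0 := by
    have := hval (0, 1) 0 (fun _ => le_refl 0)
    simpa using this
  have hc0 : ∀ p : Fin 3 × Fin 3, 0 ≤ c p := by
    intro p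
    by_contra hneg
    push Not at hneg
    have hr : 0 ≤ (f y0 - t) / (-c p) := div_nonneg (by linarith) (by linarith)
    have := hval p ((f y0 - t) / (-c p)) (fun _ => hr)
    have hne : c p ≠ 0 := hneg.ne
    have h2 : (f y0 - t) / (-c p) * c p = -(f y0 - t) := by
      rw [div_neg, neg_mul, div_mul_cancel₀ _ hne]
    rw [h2] at this
    linarith
  have hcd : ∀ p : Fin 3 × Fin 3, p.1 = p.2 → c p = 0 := by
    intro p hp
    by_contra hne
    have := hval p (-(f y0 - t) / c p) (fun h => absurd hp h)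
    have h2 : -(f y0 - t) / c p * c p = -(f y0 - t) := by
      field_simp
    rw [h2] at this
    linarith
  set C : ℝ := ∑ p, c p with hC
  have hfy0 : f y0 = C * (d / 96) := by
    rw [hf, hC, Finset.sum_mul]
  have hC0 : 0 ≤ C := Finset.sum_nonneg fun p _ => hc0 p
  have hCpos : 0 < C := by
    rcases hC0.lt_or_eq with h | h
    · exact h
    · exfalso
      have hz : ∀ p, c p = 0 := by
        intro p
        have := (Finset.sum_eq_zero_iff_of_nonneg (fun p _ => hc0 p)).1 h.symm p
          (Finset.mem_univ p)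
        exact this
      have hfz : ∀ y, f y = 0 := by
        intro y
        rw [hf]
        exact Finset.sum_eq_zero fun p _ => by rw [hz, zero_mul]
      have hx0 : (fun (_ : ι) (j : Fin 3) => if j = 0 then (1 : ℝ) else 0) ∈ md_S ι := by
        intro g _
        refine ⟨fun j => by dsimp only; split_ifs <;> norm_num, by simp⟩
      have ha := hs _ ⟨_, hx0, rfl⟩
      rw [hfz] at ha
      rw [hfz] at hty
      linarith
  obtain ⟨σ, hσ⟩ := lb u h0 h1 d hd0 hd (fun i j => c (i, j) / C)
    (fun i j => div_nonneg (hc0 _) hC0) (fun i => by rw [hcd (i, i) rfl, zero_div]) (by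
      have : ∑ i, ∑ j, c (i, j) / C = (∑ p : Fin 3 × Fin 3, c p) / C := by
        rw [Finset.sum_div, Fintype.sum_prod_type]
      rw [this]
      exact div_self hCpos.ne')
  have hxS : (fun (g : ι) (j : Fin 3) => if j = σ g then (1 : ℝ) else 0) ∈ md_S ι := by
    intro g _
    refine ⟨fun j => by dsimp only; split_ifs <;> norm_num, by simp⟩
  have ha := hs _ ⟨_, hxS, rfl⟩
  have hb := md_dual u (fun i j => c (i, j) / C) σ
  rw [← hb] at hσ
  have he : f (md_phi u fun g j => if j = σ g then 1 else 0) =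
      C * ∑ p : Fin 3 × Fin 3, c (p.1, p.2) / C *
        md_phi u (fun g j => if j = σ g then 1 else 0) p := by
    rw [hf, Finset.mul_sum]
    refine Finset.sum_congr rfl fun p _ => ?_
    field_simp
  have hfin : C * (d / 96) ≤ f (md_phi u fun g j => if j = σ g then 1 else 0) := by
    rw [he]
    exact mul_le_mul_of_nonneg_left hσ hC0
  rw [hfy0] at hty
  linarith

end Pool.Agent.EFD
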